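import Pool.Agent.N766.FD.Indic

set_option autoImplicit false

/-!
# MP_6c466c_co : fractional dilates, `‖α + 2·α‖` versus `‖α + α‖`

The question (Q1): is `‖α + 2·α‖ ≥ ‖α + α‖` for every fractional dilate `α : ℤ → [0,1]`?

The answer is no, and it is no even for indicator functions of finite sets: there is a finite set `S`
of integers with `|S + 2·S| < |S + S|`.

Idea.  There is a set `A ⊆ ℤ/33` of `11` elements with `-2·A = A` such that the uniform distribution
on `A` satisfies `H(a+a') > H(a-a')`.  One lifts it to the integers `Y = 33 u + v`, takes `r`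
independent copies, and multiplies all of them by the same random power `(-2)^J`, `J < N`.  As
`-2·A = A`, for the resulting random integer `X` the variable `2X'` behaves like `-X'` up to the
shift of `J'` by one, which costs only `O(1/N)` per copy; so `H(X+X') > H(X+2X')` for some `X` uniform
on a finite set of integers `T`, and then `α = l · 1_T` satisfies `‖α + 2·α‖ < ‖α + α‖` for some
`0 < l < 1`.  By the starting result for MP_0d5181_co (approximation of fractional dilates by finite
sets) one gets a finite set `S` with `|S + 2·S| < |S + S|`.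
-/

namespace Pool.Agent.Results.MP_6c466c_co.FractionalDilates

open scoped ENNReal

/-- A fractional dilate: a function `α : ℤ → [0,1]` with finite sum. -/
def IsFractionalDilate (α : ℤ → ℝ) : Prop := (∀ i, 0 ≤ α i ∧ α i ≤ 1) ∧ Summable α

/-- The inner sum `∑_{j + c k = i} α(j) α(k)`, over all pairs `(j, k)` of integers with
`j + c k = i`. -/
noncomputable def innerSum (c : ℤ) (α : ℤ → ℝ) (i : ℤ) : ℝ≥0∞ :=
  ∑' jk : {jk : ℤ × ℤ // jk.1 + c * jk.2 = i}, ENNReal.ofReal (α jk.1.1 * α jk.1.2)

/-- `‖α + c·α‖ = inf_{0 < p < 1} ∑_i (∑_{j + c k = i} α(j) α(k))^p`, as an element of `[0,∞]`. -/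
noncomputable def normAdd (c : ℤ) (α : ℤ → ℝ) : ℝ≥0∞ :=
  ⨅ p ∈ Set.Ioo (0 : ℝ) 1, ∑' i : ℤ, (innerSum c α i) ^ p

/-- The set `S + c·S = {s + c t : s, t ∈ S}`. -/
def sumset (c : ℤ) (S : Finset ℤ) : Finset ℤ := (S ×ˢ S).image (fun x : ℤ × ℤ => x.1 + c * x.2)

lemma innerSum_eq (c : ℤ) (α : ℤ → ℝ) (i : ℤ) :
    innerSum c α i = Pool.Agent.N766.FD.conv c α i := by
  unfold innerSum Pool.Agent.N766.FD.conv
  let e : ℤ ≃ {jk : ℤ × ℤ // jk.1 + c * jk.2 = i} :=
    { toFun := fun k => ⟨(i - c * k, k), by ring⟩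
      invFun := fun jk => jk.1.2
      left_inv := fun k => rfl
      right_inv := fun jk => by
        apply Subtype.ext
        have h := jk.2
        refine Prod.ext ?_ rfl
        change i - c * jk.1.2 = jk.1.1
        linarith }
  rw [← Equiv.tsum_eq e]
  rfl

/-- **Answer to Q1: no.**  There is a finite nonempty set `S` of integers with
`|S + 2·S| < |S + S|`; its indicator function `α` is a fractional dilate with
`‖α + 2·α‖ < ‖α + α‖`. -/
theorem result :
    ∃ S : Finset ℤ, S.Nonempty ∧ (sumset 2 S).card < (sumset 1 S).card ∧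
      IsFractionalDilate (fun i => if i ∈ S then 1 else 0) ∧
      normAdd 2 (fun i => if i ∈ S then 1 else 0) < normAdd 1 (fun i => if i ∈ S then 1 else 0) := by
  obtain ⟨S, hS, h1, h2⟩ := Pool.Agent.N766.FD.main_set
  refine ⟨S, hS, ?_, ⟨fun i => ?_, ?_⟩, ?_⟩
  · have e1 : sumset 1 S = (S ×ˢ S).image (fun x : ℤ × ℤ => x.1 + x.2) := by
      unfold sumset
      congr 1
      funext x
      rw [one_mul]
    rw [e1]
    exact h1
  · change (0 : ℝ) ≤ (if i ∈ S then 1 else 0) ∧ ((if i ∈ S then 1 else 0) : ℝ) ≤ 1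
    split_ifs
    · exact ⟨zero_le_one, le_rfl⟩
    · exact ⟨le_rfl, zero_le_one⟩
  · refine summable_of_ne_finset_zero (s := S) (fun i hi => ?_)
    rw [if_neg hi]
  · have e : ∀ c : ℤ, normAdd c (fun i => if i ∈ S then 1 else 0) =
        Pool.Agent.N766.FD.nrm c (Pool.Agent.N766.FD.ind 1 S) := by
      intro c
      unfold normAdd Pool.Agent.N766.FD.nrm
      simp only [innerSum_eq]
      rfl
    rw [e 2, e 1]
    exact h2

end Pool.Agent.Results.MP_6c466c_co.FractionalDilates
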